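import Mathlib

/-!
# Logarithmic convexity of `S_{n,c}`: the integrals `G`, `N`, `N₂` and the Riccati equation
-/

namespace Pool.Agent.N292.LC

open Real MeasureTheory intervalIntegral Set Filter Topology

/-- `sin²(φ/2)`. -/
noncomputable def sg (φ : ℝ) : ℝ := Real.sin (φ / 2) ^ 2

/-- `(1+4cu)^(-n/c)`, read as `e^(-4nu)` for `c = 0`. -/
noncomputable def w (n c u : ℝ) : ℝ :=
  if c = 0 then Real.exp (-(4 * n * u)) else (1 + 4 * c * u) ^ (-(n / c))

lemma sg_nonneg (φ : ℝ) : 0 ≤ sg φ := sq_nonneg _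
lemma sg_le_one (φ : ℝ) : sg φ ≤ 1 := Real.sin_sq_le_one _

lemma continuous_sg : Continuous sg := by unfold sg; fun_prop

lemma tau_pos {c X : ℝ} (h : 0 < 1 + 4 * c * X) (φ : ℝ) : 0 < 1 + 4 * c * (X * sg φ) := by
  have h0 := sg_nonneg φ
  have h1 := sg_le_one φ
  have e : 1 + 4 * c * (X * sg φ) = (1 - sg φ) + sg φ * (1 + 4 * c * X) := by ring
  rw [e]
  rcases eq_or_lt_of_le h0 with h2 | h2
  · rw [← h2]; norm_num
  · have := mul_pos h2 h
    linarith

lemma w_pos {n c u : ℝ} (h : 0 < 1 + 4 * c * u) : 0 < w n c u := by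
  unfold w
  split_ifs
  · exact Real.exp_pos _
  · exact Real.rpow_pos_of_pos h _

lemma hasDerivAt_w {n c u : ℝ} (h : 0 < 1 + 4 * c * u) :
    HasDerivAt (w n c) (-4 * n * (w n c u / (1 + 4 * c * u))) u := by
  by_cases hc : c = 0
  · subst hc
    have h1 : HasDerivAt (fun u : ℝ => Real.exp (-(4 * n * u))) (Real.exp (-(4 * n * u)) * (-(4 * n * 1))) u :=
      (((hasDerivAt_id u).const_mul (4 * n)).neg).exp
    have e : w n 0 = fun u : ℝ => Real.exp (-(4 * n * u)) := by funext u; simp [w]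
    rw [e]
    convert h1 using 1
    simp
    ring
  · have e : w n c = fun u : ℝ => (1 + 4 * c * u) ^ (-(n / c)) := by funext u; simp [w, hc]
    have h1 : HasDerivAt (fun u : ℝ => 1 + 4 * c * u) (4 * c * 1) u :=
      ((hasDerivAt_id u).const_mul (4 * c)).const_add 1
    have h2 := h1.rpow_const (p := -(n / c)) (Or.inl h.ne')
    rw [e]
    convert h2 using 1
    rw [Real.rpow_sub_one h.ne']
    field_simp

/-- `w/(1+4cu)` and `w/(1+4cu)²`. -/
noncomputable def w1 (n c u : ℝ) : ℝ := w n c u / (1 + 4 * c * u)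
noncomputable def w2 (n c u : ℝ) : ℝ := w n c u / (1 + 4 * c * u) ^ 2

lemma hasDerivAt_w1 {n c u : ℝ} (h : 0 < 1 + 4 * c * u) :
    HasDerivAt (w1 n c) (-4 * (n + c) * w2 n c u) u := by
  have h1 : HasDerivAt (fun u : ℝ => 1 + 4 * c * u) (4 * c * 1) u :=
    ((hasDerivAt_id u).const_mul (4 * c)).const_add 1
  have h2 := (hasDerivAt_w (n := n) h).div h1 h.ne'
  have h3 : HasDerivAt (w1 n c)
      ((-4 * n * (w n c u / (1 + 4 * c * u)) * (1 + 4 * c * u) - w n c u * (4 * c * 1)) /
        (1 + 4 * c * u) ^ 2) u := h2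
  convert h3 using 1
  unfold w2
  field_simp
  ring

lemma continuousOn_w (n c : ℝ) : ContinuousOn (w n c) {u | 0 < 1 + 4 * c * u} :=
  fun _ hu => (hasDerivAt_w hu).continuousAt.continuousWithinAt

lemma continuousOn_w1 (n c : ℝ) : ContinuousOn (w1 n c) {u | 0 < 1 + 4 * c * u} :=
  fun _ hu => (hasDerivAt_w1 hu).continuousAt.continuousWithinAt

lemma continuousOn_w2 (n c : ℝ) : ContinuousOn (w2 n c) {u | 0 < 1 + 4 * c * u} := by
  unfold w2
  apply (continuousOn_w n c).div
  · fun_prop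
  · intro u hu
    have : (0 : ℝ) < 1 + 4 * c * u := hu
    positivity

/-- Differentiation under the integral sign. -/
lemma hasDerivAt_param {f f' : ℝ → ℝ → ℝ} {X₀ r : ℝ} (hr : 0 < r)
    (hf : ∀ X ∈ Metric.closedBall X₀ r, ContinuousOn (f X) (uIcc 0 π))
    (hd : ∀ X ∈ Metric.closedBall X₀ r, ∀ φ, HasDerivAt (fun X => f X φ) (f' X φ) X)
    (hc : ContinuousOn (fun p : ℝ × ℝ => f' p.1 p.2) (Metric.closedBall X₀ r ×ˢ uIcc 0 π)) :
    HasDerivAt (fun X => ∫ φ in (0 : ℝ)..π, f X φ) (∫ φ in (0 : ℝ)..π, f' X₀ φ) X₀ := by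
  have hK : IsCompact ((Metric.closedBall X₀ r) ×ˢ (uIcc (0 : ℝ) π)) :=
    (isCompact_closedBall _ _).prod isCompact_uIcc
  obtain ⟨M, hM⟩ := hK.exists_bound_of_continuousOn hc
  have hf' : ContinuousOn (f' X₀) (uIcc 0 π) := by
    have h1 : ContinuousOn (fun φ : ℝ => ((X₀, φ) : ℝ × ℝ)) (uIcc 0 π) := by fun_prop
    exact hc.comp h1 (fun φ hφ => ⟨Metric.mem_closedBall_self hr.le, hφ⟩)
  have key := intervalIntegral.hasDerivAt_integral_of_dominated_loc_of_deriv_le (μ := volume)
    (a := 0) (b := π) (x₀ := X₀) (s := Metric.ball X₀ r) (F := f) (F' := f')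
    (bound := fun _ => M)
    (Metric.ball_mem_nhds X₀ hr)
    (by
      filter_upwards [Metric.ball_mem_nhds X₀ hr] with X hX
      exact ((hf X (Metric.ball_subset_closedBall hX)).intervalIntegrable
        (μ := volume)).def'.aestronglyMeasurable)
    ((hf X₀ (Metric.mem_closedBall_self hr.le)).intervalIntegrable)
    ((hf'.intervalIntegrable (μ := volume)).def'.aestronglyMeasurable)
    (Filter.Eventually.of_forall (fun t ht z hz =>
      hM (z, t) ⟨Metric.ball_subset_closedBall hz, Set.uIoc_subset_uIcc ht⟩))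
    (by simp)
    (Filter.Eventually.of_forall (fun t _ z hz => hd z (Metric.ball_subset_closedBall hz) t))
  exact key.2

/-- The integrals. -/
noncomputable def G (n c X : ℝ) : ℝ := ∫ φ in (0 : ℝ)..π, w n c (X * sg φ)
noncomputable def N (n c X : ℝ) : ℝ := ∫ φ in (0 : ℝ)..π, sg φ * w1 n c (X * sg φ)
noncomputable def N2 (n c X : ℝ) : ℝ := ∫ φ in (0 : ℝ)..π, sg φ ^ 2 * w2 n c (X * sg φ)

lemma exists_ball {c X₀ : ℝ} (h : 0 < 1 + 4 * c * X₀) :
    ∃ r > 0, ∀ X ∈ Metric.closedBall X₀ r, 0 < 1 + 4 * c * X := by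
  have ho : IsOpen {X : ℝ | 0 < 1 + 4 * c * X} := isOpen_lt continuous_const (by fun_prop)
  obtain ⟨r, hr, hr'⟩ := Metric.nhds_basis_closedBall.mem_iff.mp (ho.mem_nhds h)
  exact ⟨r, hr, fun X hX => hr' hX⟩

lemma continuousOn_comp {g : ℝ → ℝ} {c : ℝ} (hg : ContinuousOn g {u | 0 < 1 + 4 * c * u})
    {s : Set (ℝ × ℝ)} (hs : ∀ p ∈ s, 0 < 1 + 4 * c * p.1) :
    ContinuousOn (fun p : ℝ × ℝ => g (p.1 * sg p.2)) s := by
  apply hg.comp
  · exact (continuous_fst.mul (continuous_sg.comp continuous_snd)).continuousOn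
  · intro p hp
    exact tau_pos (hs p hp) p.2

lemma continuousOn_slice {g : ℝ → ℝ} {c X : ℝ} (hg : ContinuousOn g {u | 0 < 1 + 4 * c * u})
    (hX : 0 < 1 + 4 * c * X) (s : Set ℝ) : ContinuousOn (fun φ : ℝ => g (X * sg φ)) s := by
  apply hg.comp
  · exact (continuous_const.mul continuous_sg).continuousOn
  · intro φ _
    exact tau_pos hX φ

lemma hasDerivAt_G {n c X : ℝ} (h : 0 < 1 + 4 * c * X) :
    HasDerivAt (G n c) (-4 * n * N n c X) X := by
  obtain ⟨r, hr, hr'⟩ := exists_ball h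
  have key := hasDerivAt_param (f := fun X φ => w n c (X * sg φ))
    (f' := fun X φ => -4 * n * (sg φ * w1 n c (X * sg φ))) (X₀ := X) hr
    (fun X hX => continuousOn_slice (continuousOn_w n c) (hr' X hX) _)
    (fun X hX φ => by
      have h1 : HasDerivAt (fun X : ℝ => X * sg φ) (1 * sg φ) X := (hasDerivAt_id X).mul_const _
      have h2 := (hasDerivAt_w (n := n) (tau_pos (hr' X hX) φ)).comp X h1
      have h3 : HasDerivAt (fun X => w n c (X * sg φ))
        (-4 * n * (w n c (X * sg φ) / (1 + 4 * c * (X * sg φ))) * (1 * sg φ)) X := h2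
      convert h3 using 1
      unfold w1
      ring)
    (by
      apply ContinuousOn.mul continuousOn_const
      apply ContinuousOn.mul (continuous_sg.comp continuous_snd).continuousOn
      exact continuousOn_comp (continuousOn_w1 n c) (fun p hp => hr' p.1 hp.1))
  rw [intervalIntegral.integral_const_mul] at key
  exact key

lemma hasDerivAt_N {n c X : ℝ} (h : 0 < 1 + 4 * c * X) :
    HasDerivAt (N n c) (-4 * (n + c) * N2 n c X) X := by
  obtain ⟨r, hr, hr'⟩ := exists_ball h
  have key := hasDerivAt_param (f := fun X φ => sg φ * w1 n c (X * sg φ))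
    (f' := fun X φ => -4 * (n + c) * (sg φ ^ 2 * w2 n c (X * sg φ))) (X₀ := X) hr
    (fun X hX => continuous_sg.continuousOn.mul
      (continuousOn_slice (continuousOn_w1 n c) (hr' X hX) _))
    (fun X hX φ => by
      have h1 : HasDerivAt (fun X : ℝ => X * sg φ) (1 * sg φ) X := (hasDerivAt_id X).mul_const _
      have h2 := ((hasDerivAt_w1 (n := n) (tau_pos (hr' X hX) φ)).comp X h1).const_mul (sg φ)
      have h3 : HasDerivAt (fun X => sg φ * w1 n c (X * sg φ))
        (sg φ * (-4 * (n + c) * w2 n c (X * sg φ) * (1 * sg φ))) X := h2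
      convert h3 using 1
      ring)
    (by
      apply ContinuousOn.mul continuousOn_const
      apply ContinuousOn.mul ((continuous_sg.comp continuous_snd).pow 2).continuousOn
      exact continuousOn_comp (continuousOn_w2 n c) (fun p hp => hr' p.1 hp.1))
  rw [intervalIntegral.integral_const_mul] at key
  exact key

lemma hasDerivAt_sg (φ : ℝ) : HasDerivAt sg (Real.sin φ / 2) φ := by
  have h1 : HasDerivAt (fun φ : ℝ => φ / 2) (1 / 2) φ := (hasDerivAt_id φ).div_const 2
  have h2 := (h1.sin).pow 2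
  have h3 : HasDerivAt sg (((2 : ℕ) : ℝ) * Real.sin (φ / 2) ^ (2 - 1) * (Real.cos (φ / 2) * (1 / 2))) φ := h2
  convert h3 using 1
  have : Real.sin φ = 2 * Real.sin (φ / 2) * Real.cos (φ / 2) := by
    rw [← Real.sin_two_mul]; congr 1; ring
  rw [this]
  push_cast
  ring

lemma cos_eq (φ : ℝ) : Real.cos φ = 1 - 2 * sg φ := by
  unfold sg
  have : Real.cos φ = 1 - 2 * Real.sin (φ / 2) ^ 2 := by
    have h := Real.cos_two_mul (φ / 2)
    have h2 := Real.sin_sq_add_cos_sq (φ / 2)
    rw [show 2 * (φ / 2) = φ by ring] at h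
    rw [h]; linarith
  exact this

lemma sin_sq_eq (φ : ℝ) : Real.sin φ ^ 2 = 4 * sg φ * (1 - sg φ) := by
  have h1 := cos_eq φ
  have h2 := Real.sin_sq_add_cos_sq φ
  rw [h1] at h2
  linarith

/-- The integration by parts identity (the differential equation). -/
lemma identity {n c X : ℝ} (h : 0 < 1 + 4 * c * X) :
    G n c X - 2 * (1 + (4 * n + 6 * c) * X) * N n c X +
      8 * (n + c) * X * (1 + 4 * c * X) * N2 n c X = 0 := by
  have hd : ∀ φ ∈ uIcc (0 : ℝ) π, HasDerivAt (fun φ => Real.sin φ * w1 n c (X * sg φ))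
      (w n c (X * sg φ) - 2 * (1 + (4 * n + 6 * c) * X) * (sg φ * w1 n c (X * sg φ)) +
        8 * (n + c) * X * (1 + 4 * c * X) * (sg φ ^ 2 * w2 n c (X * sg φ))) φ := by
    intro φ _
    have ht := tau_pos h φ
    have h1 : HasDerivAt (fun φ : ℝ => X * sg φ) (X * (Real.sin φ / 2)) φ :=
      (hasDerivAt_sg φ).const_mul X
    have h2 := (hasDerivAt_w1 (n := n) ht).comp φ h1
    have h3 : HasDerivAt (fun φ => w1 n c (X * sg φ))
      (-4 * (n + c) * w2 n c (X * sg φ) * (X * (Real.sin φ / 2))) φ := h2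
    have h4 := (Real.hasDerivAt_sin φ).mul h3
    have h5 : HasDerivAt (fun φ => Real.sin φ * w1 n c (X * sg φ))
      (Real.cos φ * w1 n c (X * sg φ) +
        Real.sin φ * (-4 * (n + c) * w2 n c (X * sg φ) * (X * (Real.sin φ / 2)))) φ := h4
    convert h5 using 1
    rw [cos_eq]
    have e : Real.sin φ * (-4 * (n + c) * w2 n c (X * sg φ) * (X * (Real.sin φ / 2))) =
        -2 * (n + c) * X * (Real.sin φ ^ 2) * w2 n c (X * sg φ) := by ring
    rw [e, sin_sq_eq]
    have e1 : w1 n c (X * sg φ) = w2 n c (X * sg φ) * (1 + 4 * c * (X * sg φ)) := by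
      have e0 : w2 n c (X * sg φ) * (1 + 4 * c * (X * sg φ)) ^ 2 = w n c (X * sg φ) := by
        unfold w2
        rw [div_mul_cancel₀ _ (pow_ne_zero 2 ht.ne')]
      unfold w1
      rw [div_eq_iff ht.ne', ← e0]
      ring
    have e0 : w n c (X * sg φ) = w2 n c (X * sg φ) * (1 + 4 * c * (X * sg φ)) ^ 2 := by
      unfold w2
      rw [div_mul_cancel₀ _ (pow_ne_zero 2 ht.ne')]
    rw [e1, e0]
    ring
  have cG : ContinuousOn (fun φ => w n c (X * sg φ)) (uIcc 0 π) :=
    continuousOn_slice (continuousOn_w n c) h _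
  have cN : ContinuousOn (fun φ => sg φ * w1 n c (X * sg φ)) (uIcc 0 π) :=
    continuous_sg.continuousOn.mul (continuousOn_slice (continuousOn_w1 n c) h _)
  have cN2 : ContinuousOn (fun φ => sg φ ^ 2 * w2 n c (X * sg φ)) (uIcc 0 π) :=
    (continuous_sg.pow 2).continuousOn.mul (continuousOn_slice (continuousOn_w2 n c) h _)
  have iG := cG.intervalIntegrable (μ := volume)
  have iN := cN.intervalIntegrable (μ := volume)
  have iN2 := cN2.intervalIntegrable (μ := volume)
  have key := intervalIntegral.integral_eq_sub_of_hasDerivAt hd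
    (((iG.sub (iN.const_mul _)).add (iN2.const_mul _)))
  rw [intervalIntegral.integral_add (iG.sub (iN.const_mul _)) (iN2.const_mul _),
    intervalIntegral.integral_sub iG (iN.const_mul _), intervalIntegral.integral_const_mul,
    intervalIntegral.integral_const_mul] at key
  simp only [Real.sin_pi, Real.sin_zero, zero_mul, sub_zero] at key
  exact key

lemma G_pos {n c X : ℝ} (h : 0 < 1 + 4 * c * X) : 0 < G n c X := by
  unfold G
  apply intervalIntegral.intervalIntegral_pos_of_pos_on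
  · exact (continuousOn_slice (continuousOn_w n c) h _).intervalIntegrable
  · intro φ _
    exact w_pos (tau_pos h φ)
  · exact Real.pi_pos

lemma N_pos {n c X : ℝ} (h : 0 < 1 + 4 * c * X) : 0 < N n c X := by
  unfold N
  apply intervalIntegral.intervalIntegral_pos_of_pos_on
  · exact (continuous_sg.continuousOn.mul
      (continuousOn_slice (continuousOn_w1 n c) h _)).intervalIntegrable
  · intro φ hφ
    have h1 : 0 < sg φ := by
      unfold sg
      have : 0 < Real.sin (φ / 2) := Real.sin_pos_of_pos_of_lt_pi (by linarith [hφ.1])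
        (by linarith [hφ.2, Real.pi_pos])
      positivity
    have ht := tau_pos h φ
    exact mul_pos h1 (div_pos (w_pos ht) ht)
  · exact Real.pi_pos

/-- `q N ≤ G`. -/
lemma qN_le_G {n c X : ℝ} (h : 0 < 1 + 4 * c * X) : (1 + 4 * c * X) * N n c X ≤ G n c X := by
  unfold N G
  rw [← intervalIntegral.integral_const_mul]
  apply intervalIntegral.integral_mono_on Real.pi_pos.le
  · exact ((continuous_sg.continuousOn.mul
      (continuousOn_slice (continuousOn_w1 n c) h _)).intervalIntegrable).const_mul _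
  · exact (continuousOn_slice (continuousOn_w n c) h _).intervalIntegrable
  · intro φ _
    have ht := tau_pos h φ
    have hw := w_pos (n := n) ht
    have h0 := sg_nonneg φ
    have h1 := sg_le_one φ
    have e : w n c (X * sg φ) = w1 n c (X * sg φ) * (1 + 4 * c * (X * sg φ)) := by
      unfold w1; rw [div_mul_cancel₀ _ ht.ne']
    have hw1 : 0 < w1 n c (X * sg φ) := div_pos hw ht
    rw [e]
    have : (1 + 4 * c * X) * sg φ ≤ 1 + 4 * c * (X * sg φ) := by nlinarith
    nlinarith

end Pool.Agent.N292.LC
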