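import Mathlib
import Pool.Agent.N292.LC.Basic

/-!
# The Riccati comparison
-/

namespace Pool.Agent.N292.LC

open Real MeasureTheory intervalIntegral Set Filter Topology

/-- `m = N/G`, the weighted mean of `sin²(φ/2)/(1+4cX sin²(φ/2))`. -/
noncomputable def mm (n c X : ℝ) : ℝ := N n c X / G n c X

/-- `s = √((1+4cX)² + (4nX)²)`. -/
noncomputable def ss (n c X : ℝ) : ℝ := Real.sqrt ((1 + 4 * c * X) ^ 2 + 16 * n ^ 2 * X ^ 2)

/-- The derivative of `m`. -/
noncomputable def dm (n c X : ℝ) : ℝ :=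
  4 * n * mm n c X ^ 2 - 4 * (n + c) * (N2 n c X / G n c X)

lemma hasDerivAt_mm {n c X : ℝ} (h : 0 < 1 + 4 * c * X) :
    HasDerivAt (mm n c) (dm n c X) X := by
  have hG := G_pos (n := n) h
  have h1 := (hasDerivAt_N (n := n) h).div (hasDerivAt_G (n := n) h) hG.ne'
  have h2 : HasDerivAt (mm n c)
    ((-4 * (n + c) * N2 n c X * G n c X - N n c X * (-4 * n * N n c X)) / G n c X ^ 2) X := h1
  convert h2 using 1
  unfold dm mm
  field_simp
  ring

/-- The Riccati equation. -/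
lemma riccati {n c X : ℝ} (h : 0 < 1 + 4 * c * X) :
    X * (1 + 4 * c * X) * dm n c X =
      4 * n * X * (1 + 4 * c * X) * mm n c X ^ 2 - (1 + (4 * n + 6 * c) * X) * mm n c X + 1 / 2 := by
  have hG := G_pos (n := n) h
  have hid := identity (n := n) h
  unfold dm mm
  have e : 4 * (n + c) * X * (1 + 4 * c * X) * (N2 n c X / G n c X) =
      (1 + (4 * n + 6 * c) * X) * (N n c X / G n c X) - 1 / 2 := by
    field_simp
    linarith
  linear_combination -e

lemma mm_pos {n c X : ℝ} (h : 0 < 1 + 4 * c * X) : 0 < mm n c X :=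
  div_pos (N_pos h) (G_pos h)

lemma q_mm_le {n c X : ℝ} (h : 0 < 1 + 4 * c * X) : (1 + 4 * c * X) * mm n c X ≤ 1 := by
  unfold mm
  rw [← mul_div_assoc, div_le_one (G_pos h)]
  exact qN_le_G h

lemma ss_sq (n c X : ℝ) : ss n c X ^ 2 = (1 + 4 * c * X) ^ 2 + 16 * n ^ 2 * X ^ 2 :=
  Real.sq_sqrt (by positivity)

lemma ss_nonneg (n c X : ℝ) : 0 ≤ ss n c X := Real.sqrt_nonneg _

lemma q_le_ss {n c X : ℝ} (h : 0 < 1 + 4 * c * X) : 1 + 4 * c * X ≤ ss n c X := by
  apply Real.le_sqrt_of_sq_le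
  have : 0 ≤ 16 * n ^ 2 * X ^ 2 := by positivity
  linarith

lemma nX_le_ss {n c X : ℝ} : 4 * n * X ≤ ss n c X := by
  apply Real.le_sqrt_of_sq_le
  have : 0 ≤ (1 + 4 * c * X) ^ 2 := by positivity
  nlinarith

lemma hasDerivAt_ss {n c X : ℝ} (h : 0 < 1 + 4 * c * X) :
    HasDerivAt (ss n c) ((4 * c * (1 + 4 * c * X) + 16 * n ^ 2 * X) / ss n c X) X := by
  have h1 : HasDerivAt (fun X : ℝ => 1 + 4 * c * X) (4 * c * 1) X :=
    ((hasDerivAt_id X).const_mul (4 * c)).const_add 1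
  have h2 := h1.pow 2
  have h3 : HasDerivAt (fun X : ℝ => 16 * n ^ 2 * X ^ 2) (16 * n ^ 2 * (((2 : ℕ) : ℝ) * X ^ (2 - 1) * 1)) X :=
    ((hasDerivAt_id X).pow 2).const_mul _
  have h4 := (h2.add h3).sqrt (by
    have : 0 < (1 + 4 * c * X) ^ 2 := by positivity
    have : 0 ≤ 16 * n ^ 2 * X ^ 2 := by positivity
    simp only [Pi.add_apply, Pi.pow_apply]
    positivity)
  have h5 : HasDerivAt (ss n c) ((((2 : ℕ) : ℝ) * (1 + 4 * c * X) ^ (2 - 1) * (4 * c * 1) +
      16 * n ^ 2 * (((2 : ℕ) : ℝ) * X ^ (2 - 1) * 1)) / (2 * ss n c X)) X := h4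
  convert h5 using 1
  have hs : 0 < ss n c X := lt_of_lt_of_le h (q_le_ss h)
  field_simp
  push_cast
  ring

lemma in_U {c X X₁ : ℝ} (h : 0 < 1 + 4 * c * X₁) (h0 : 0 ≤ X) (h1 : X ≤ X₁) :
    0 < 1 + 4 * c * X := by
  rcases le_or_gt 0 c with hc | hc
  · positivity
  · nlinarith

/-- The comparison function `v = (b + s) m`. -/
noncomputable def vv (n c X : ℝ) : ℝ := (1 + 4 * c * X + 4 * n * X + ss n c X) * mm n c X

lemma vv_zero (n c : ℝ) : vv n c 0 = 1 := by
  have h : 0 < 1 + 4 * c * (0 : ℝ) := by norm_num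
  have hG := G_pos (n := n) h
  have hid := identity (n := n) h
  have hs : ss n c 0 = 1 := by unfold ss; norm_num
  unfold vv
  rw [hs]
  unfold mm
  rw [← mul_div_assoc, div_eq_one_iff_eq hG.ne']
  linarith

lemma hasDerivAt_vv {n c X : ℝ} (h : 0 < 1 + 4 * c * X) :
    HasDerivAt (vv n c)
      ((4 * c + 4 * n + (4 * c * (1 + 4 * c * X) + 16 * n ^ 2 * X) / ss n c X) * mm n c X +
        (1 + 4 * c * X + 4 * n * X + ss n c X) * dm n c X) X := by
  have h1 : HasDerivAt (fun X : ℝ => 1 + 4 * c * X) (4 * c * 1) X :=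
    ((hasDerivAt_id X).const_mul (4 * c)).const_add 1
  have h2 : HasDerivAt (fun X : ℝ => 4 * n * X) (4 * n * 1) X := (hasDerivAt_id X).const_mul (4 * n)
  have h3 := ((h1.add h2).add (hasDerivAt_ss (n := n) h)).mul (hasDerivAt_mm (n := n) h)
  have h4 : HasDerivAt (vv n c)
    ((4 * c * 1 + 4 * n * 1 + (4 * c * (1 + 4 * c * X) + 16 * n ^ 2 * X) / ss n c X) * mm n c X +
        (1 + 4 * c * X + 4 * n * X + ss n c X) * dm n c X) X := h3
  convert h4 using 1
  ring

lemma deriv_vv_pos {n c X : ℝ} (hn : 0 < n) (hnc : 0 ≤ n + c) (hX : 0 < X)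
    (h : 0 < 1 + 4 * c * X) (hv : vv n c X < 1) :
    0 < (4 * c + 4 * n + (4 * c * (1 + 4 * c * X) + 16 * n ^ 2 * X) / ss n c X) * mm n c X +
        (1 + 4 * c * X + 4 * n * X + ss n c X) * dm n c X := by
  have hm := mm_pos (n := n) h
  have hs : 0 < ss n c X := lt_of_lt_of_le h (q_le_ss h)
  have hsq := ss_sq n c X
  have hqs := q_le_ss (n := n) h
  have hr := riccati (n := n) h
  unfold vv at hv
  set q := 1 + 4 * c * X with hq
  set m := mm n c X with hmdef
  set s := ss n c X with hsdef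
  set d := dm n c X with hddef
  -- F < 0
  have hF : (1 - (q + 4 * n * X - s) * m) * ((q + 4 * n * X + s) * m - 1) < 0 := by
    have h1 : (q + 4 * n * X - s) * m < 1 := by
      have : (q + 4 * n * X - s) * m ≤ (q + 4 * n * X + s) * m := by
        apply mul_le_mul_of_nonneg_right _ hm.le
        linarith
      linarith
    exact mul_neg_of_pos_of_neg (by linarith) (by linarith)
  -- the coefficient
  have hT : 0 ≤ s * (4 * n * (1 + 2 * c * X) + 2 * c * q) + 2 * c * q ^ 2 +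
      16 * n ^ 2 * X * (1 + 2 * c * X) := by
    have h12 : 0 < 1 + 2 * c * X := by nlinarith
    rcases le_or_gt 0 c with hc | hc
    · positivity
    · have hq1 : q ≤ 1 := by rw [hq]; nlinarith
      have e1 : 4 * n * (1 + 2 * c * X) = 2 * n * (1 + q) := by rw [hq]; ring
      have e2 : 2 * n ≤ 4 * n * (1 + 2 * c * X) + 2 * c * q := by
        rw [e1]
        have := mul_nonneg hnc h.le
        nlinarith
      have e3 : s * (2 * n) ≤ s * (4 * n * (1 + 2 * c * X) + 2 * c * q) :=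
        mul_le_mul_of_nonneg_left e2 hs.le
      have e4 : q * (2 * n) ≤ s * (2 * n) := mul_le_mul_of_nonneg_right hqs (by positivity)
      have e5 : -(2 * n) * q ^ 2 ≤ 2 * c * q ^ 2 := by
        have := mul_nonneg hnc (sq_nonneg q)
        nlinarith
      have e6 : q ^ 2 ≤ q := by nlinarith
      have e7 : 0 ≤ 16 * n ^ 2 * X * (1 + 2 * c * X) := by positivity
      have e8 : 2 * n * q ^ 2 ≤ 2 * n * q := mul_le_mul_of_nonneg_left e6 (by positivity)
      nlinarith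
  have key : s * (X * q * ((4 * c + 4 * n + (4 * c * q + 16 * n ^ 2 * X) / s) * m +
      (q + 4 * n * X + s) * d)) =
      X * m * (s * (4 * n * (1 + 2 * c * X) + 2 * c * q) + 2 * c * q ^ 2 +
        16 * n ^ 2 * X * (1 + 2 * c * X)) -
      s * ((q + 4 * n * X + s) / 2) *
        ((1 - (q + 4 * n * X - s) * m) * ((q + 4 * n * X + s) * m - 1)) := by
    have e1 : s * (X * q * ((4 * c + 4 * n + (4 * c * q + 16 * n ^ 2 * X) / s) * m +
      (q + 4 * n * X + s) * d)) = X * q * (s * (4 * c + 4 * n) + (4 * c * q + 16 * n ^ 2 * X)) * m +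
        s * (q + 4 * n * X + s) * (X * q * d) := by
      field_simp
    rw [e1, hr]
    have hs2 : s ^ 2 = q ^ 2 + 16 * n ^ 2 * X ^ 2 := hsq
    have hs3 : s ^ 3 = s * (q ^ 2 + 16 * n ^ 2 * X ^ 2) := by rw [← hs2]; ring
    have hs4 : s ^ 4 = (q ^ 2 + 16 * n ^ 2 * X ^ 2) ^ 2 := by rw [← hs2]; ring
    have hX' : 4 * c * X = q - 1 := by rw [hq]; ring
    ring_nf
    simp only [hs2, hs3, hs4]
    rw [hq]
    try ring
  have hpos : 0 < s * (X * q * ((4 * c + 4 * n + (4 * c * q + 16 * n ^ 2 * X) / s) * m +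
      (q + 4 * n * X + s) * d)) := by
    rw [key]
    have h1 : 0 ≤ X * m * (s * (4 * n * (1 + 2 * c * X) + 2 * c * q) + 2 * c * q ^ 2 +
        16 * n ^ 2 * X * (1 + 2 * c * X)) := mul_nonneg (by positivity) hT
    have h2 : 0 < s * ((q + 4 * n * X + s) / 2) := by positivity
    have h3 := mul_neg_of_pos_of_neg h2 hF
    linarith
  have h4 : 0 < X * q * ((4 * c + 4 * n + (4 * c * q + 16 * n ^ 2 * X) / s) * m +
      (q + 4 * n * X + s) * d) := (mul_pos_iff_of_pos_left hs).mp hpos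
  exact (mul_pos_iff_of_pos_left (mul_pos hX h)).mp h4

/-- `v ≥ 1`. -/
lemma one_le_vv {n c X₁ : ℝ} (hn : 0 < n) (hnc : 0 ≤ n + c) (h1 : 0 ≤ X₁)
    (hU : 0 < 1 + 4 * c * X₁) : 1 ≤ vv n c X₁ := by
  by_contra hlt
  push Not at hlt
  have hcont : ContinuousOn (vv n c) (Icc 0 X₁) := fun X hX =>
    (hasDerivAt_vv (in_U hU hX.1 hX.2)).continuousAt.continuousWithinAt
  obtain ⟨Y, hY, hmin⟩ := isCompact_Icc.exists_isMinOn (nonempty_Icc.mpr h1) hcont
  have hY1 : vv n c Y < 1 := lt_of_le_of_lt (hmin (right_mem_Icc.mpr h1)) hlt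
  have hY0 : 0 < Y := by
    rcases eq_or_lt_of_le hY.1 with h | h
    · rw [← h, vv_zero] at hY1
      exact absurd hY1 (lt_irrefl _)
    · exact h
  have hYU := in_U hU hY.1 hY.2
  have hd := hasDerivAt_vv (n := n) hYU
  have hpos := deriv_vv_pos hn hnc hY0 hYU hY1
  rw [hasDerivAt_iff_tendsto_slope] at hd
  have h2 : ∀ᶠ z in 𝓝[≠] Y, 0 < slope (vv n c) Y z := hd.eventually (lt_mem_nhds hpos)
  have h3 : ∀ᶠ z in 𝓝[<] Y, 0 < slope (vv n c) Y z :=
    h2.filter_mono (nhdsWithin_mono _ (fun z hz => ne_of_lt hz))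
  have h4 : ∀ᶠ z in 𝓝[<] Y, z ∈ Ioo 0 Y := Ioo_mem_nhdsLT hY0
  obtain ⟨z, hz1, hz2⟩ := (h3.and h4).exists
  have h5 := hmin (show z ∈ Icc 0 X₁ from ⟨hz2.1.le, hz2.2.le.trans hY.2⟩)
  rw [slope_def_field] at hz1
  have h6 : z - Y < 0 := by linarith [hz2.2]
  have h7 : (vv n c z - vv n c Y) < 0 := by
    by_contra hc
    push Not at hc
    have := div_nonpos_of_nonneg_of_nonpos hc h6.le
    linarith
  have h5' : vv n c Y ≤ vv n c z := h5
  linarith

/-- The main inequality: `2cm + q m' ≤ 0`. -/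
lemma main_ineq {n c X : ℝ} (hn : 0 < n) (hnc : 0 ≤ n + c) (hX : 0 < X)
    (h : 0 < 1 + 4 * c * X) :
    2 * c * mm n c X + (1 + 4 * c * X) * dm n c X ≤ 0 := by
  have hv := one_le_vv hn hnc hX.le h
  have hm := mm_pos (n := n) h
  have hqm := q_mm_le (n := n) h
  have hr := riccati (n := n) h
  have hsq := ss_sq n c X
  have h4 := nX_le_ss (n := n) (c := c) (X := X)
  unfold vv at hv
  set q := 1 + 4 * c * X with hq
  set m := mm n c X with hmdef
  set s := ss n c X with hsdef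
  set d := dm n c X with hddef
  have h1 : (q + 4 * n * X - s) * m ≤ 1 := by
    refine le_trans ?_ hqm
    apply mul_le_mul_of_nonneg_right _ hm.le
    linarith
  have hF : 0 ≤ (1 - (q + 4 * n * X - s) * m) * ((q + 4 * n * X + s) * m - 1) :=
    mul_nonneg (by linarith) (by linarith)
  have e : X * (2 * c * m + q * d) =
      -(1 / 2) * ((1 - (q + 4 * n * X - s) * m) * ((q + 4 * n * X + s) * m - 1)) := by
    have e1 : X * (2 * c * m + q * d) = 2 * c * X * m + X * q * d := by ring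
    rw [e1, hr]
    have e2 : (1 - (q + 4 * n * X - s) * m) * ((q + 4 * n * X + s) * m - 1) =
        2 * (q + 4 * n * X) * m - 1 - ((q + 4 * n * X) ^ 2 - s ^ 2) * m ^ 2 := by ring
    rw [e2, hsq, hq]
    ring
  have h2 : X * (2 * c * m + q * d) ≤ 0 := by rw [e]; linarith
  by_contra hc
  push Not at hc
  have := mul_pos hX hc
  linarith

end Pool.Agent.N292.LC
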